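import Pool.Agent.Lib.MP_c86656_gt.Main

/-!
# Hausdorff convergence of Lagrangians under `J`-adapted metrics

Full positive answer to Q1, in every dimension: `M` is a smooth Riemannian manifold (`dist` is
the Riemannian distance), `J` is a smooth orthogonal almost complex structure whose form
`ω = ⟪J ·, ·⟫` is closed, and the sectional curvature is bounded above by `K` (neither
completeness, nor a lower curvature bound, nor an injectivity radius bound is needed).
`Lstar` is a collection of closed connected Lagrangians, `F` and `F'` are families in `Lstar`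
whose unions have closures with discrete intersection, and `d`, `d'` are `J`-adapted pseudometrics
for `F` and `F'`.  If `L n`, `L₀` in `Lstar` have second fundamental forms bounded by `Λ` and
`max (d (L n) L₀) (d' (L n) L₀) → 0`, then the Hausdorff distance of `L n` and `L₀` tends to `0`.
-/

open Set Filter Topology Manifold MeasureTheory Bundle
open scoped ContDiff ENNReal
open Pool.Agent.MP_c86656_gt

/-- Cornea's question: convergence in a `J`-adapted metric, with uniformly bounded second
fundamental forms, implies Hausdorff convergence. -/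
theorem Pool.Agent.Results.MP_c86656_gt.HausdorffConvergence.result
    {E : Type*} [NormedAddCommGroup E] [NormedSpace ℝ E] [FiniteDimensional ℝ E]
    {M : Type*} [MetricSpace M] [ChartedSpace E M] [IsManifold 𝓘(ℝ, E) ∞ M]
    [RiemannianBundle (fun x : M => TangentSpace 𝓘(ℝ, E) x)]
    [IsContMDiffRiemannianBundle 𝓘(ℝ, E) ∞ E (fun x : M => TangentSpace 𝓘(ℝ, E) x)]
    [IsRiemannianManifold 𝓘(ℝ, E) M]
    (hdim : 0 < Module.finrank ℝ E)
    {J : EndField E M} (hJ : IsCompatible J)
    {K : ℝ} (hK : SectionalCurvatureLE E M K)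
    {Lstar F F' : Set (Set M)} (hLag : ∀ L ∈ Lstar, IsClosedLagrangian J L)
    (hF : F ⊆ Lstar) (hF' : F' ⊆ Lstar)
    (hdisc : DiscreteTopology ↥(closure (⋃₀ F) ∩ closure (⋃₀ F')))
    {d d' : Set M → Set M → ℝ≥0∞} (hd : IsPseudoDist Lstar d) (hd' : IsPseudoDist Lstar d')
    (had : JAdapted J Lstar F d) (had' : JAdapted J Lstar F' d')
    {Λ : ℝ} {L : ℕ → Set M} {L₀ : Set M} (hL : ∀ n, L n ∈ Lstar) (hL₀ : L₀ ∈ Lstar)
    (hΛ : ∀ n, SecondFormLE E Λ (L n)) (hΛ₀ : SecondFormLE E Λ L₀)
    (hlim : Tendsto (fun n => max (d (L n) L₀) (d' (L n) L₀)) atTop (𝓝 0)) :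
    Tendsto (fun n => Metric.hausdorffDist (L n) L₀) atTop (𝓝 0) :=
  hausdorff_convergence hdim hJ hK Λ hLag hF hF' hdisc hd hd' had had' hL hL₀ hΛ hΛ₀ hlim
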